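import Pool.Agent.Q156.KH.C

set_option autoImplicit false

/-! MP_223ae3_pr, Q1: the stability inequality holds for the third moment, with `C_3 = 1/10000`. -/

namespace Pool.Agent.Results.MP_223ae3_pr.ThirdMomentStability

open Pool.Agent.Q156.KH

/-- `E |a_1 ε_1 + ⋯ + a_n ε_n| ^ 3`, the mean over all `2 ^ n` choices of the signs -/
noncomputable def thirdMoment {n : ℕ} (a : Fin n → ℝ) : ℝ :=
  (∑ ε : Fin n → Bool, |∑ i, (if ε i then a i else -a i)| ^ 3) / 2 ^ n

/-- `D(a)` -/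
noncomputable def deficit {n : ℕ} (a : Fin n → ℝ) : ℝ := ∑ i, (a i ^ 2 - 1 / (n : ℝ)) ^ 2

lemma thirdMoment_eq {n : ℕ} (a : Fin n → ℝ) : thirdMoment a = ex (List.ofFn a) cu 0 := by
  rw [ex_sum]
  unfold thirdMoment cu
  simp only [zero_add]

theorem result (n : ℕ) (a : Fin n → ℝ) (ha : ∑ i, a i ^ 2 = 1) :
    thirdMoment a ≤ thirdMoment (fun _ : Fin n => 1 / √(n : ℝ)) - 1 / 10000 * deficit a := by
  have hn : n ≠ 0 := by
    rintro rfl
    simp at ha
  have hn' : (n : ℝ) ≠ 0 := by exact_mod_cast hn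
  have h := main (fun i => a i ^ 2) (fun i => sq_nonneg _) ha
  have h1 : (fun i => √(a i ^ 2)) = fun i => |a i| := by
    funext i
    exact Real.sqrt_sq_eq_abs _
  have h2 : ex (List.ofFn fun i => |a i|) cu 0 = thirdMoment a := by
    rw [thirdMoment_eq, ← ex_abs (List.ofFn a), List.map_ofFn]
    rfl
  have h3 : (fun _ : Fin n => √(1 / (n : ℝ))) = fun _ : Fin n => 1 / √(n : ℝ) := by
    funext _
    rw [Real.sqrt_div zero_le_one, Real.sqrt_one]
  simp only [h1, h2] at h
  rw [h3, ← thirdMoment_eq] at h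
  have h4 : deficit a = ∑ i, (a i ^ 2) ^ 2 - 1 / n := by
    unfold deficit
    have e : ∀ i, (a i ^ 2 - 1 / (n : ℝ)) ^ 2 =
        (a i ^ 2) ^ 2 - 2 / n * a i ^ 2 + 1 / n ^ 2 := fun i => by ring
    simp only [e, Finset.sum_add_distrib, Finset.sum_sub_distrib, ← Finset.mul_sum, ha,
      Finset.sum_const, Finset.card_univ, Fintype.card_fin, nsmul_eq_mul]
    field_simp
    ring
  rw [h4]
  linarith

end Pool.Agent.Results.MP_223ae3_pr.ThirdMomentStability
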